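import Pool.Agent.W710.DP.Stm2

/-! # Translations near the origin (DP-TRANS) -/

set_option autoImplicit false

namespace Pool.Agent.W597.DP

open Pool.Agent.W710.DP

/-- directional derivative -/
noncomputable def pd (e : ℝ × ℝ) (u : ℝ × ℝ → ℝ) (p : ℝ × ℝ) : ℝ := fderiv ℝ u p e

theorem smooth_pd (e : ℝ × ℝ) {G : ℝ × ℝ → ℝ} (hG : Sm G) : Sm (pd e G) := by
  have h : ContDiff ℝ ((⊤ : ℕ∞) : WithTop ℕ∞) (fderiv ℝ G) := hG.fderiv_right (by simp)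
  exact h.clm_apply contDiff_const

theorem cs_pd (e : ℝ × ℝ) {G : ℝ × ℝ → ℝ} (hG : HasCompactSupport G) :
    HasCompactSupport (pd e G) :=
  (hG.fderiv ℝ).comp_left (g := fun L : (ℝ × ℝ) →L[ℝ] ℝ => L e) (by simp)

theorem bd_pd (e : ℝ × ℝ) {G : ℝ × ℝ → ℝ} (hG : Sm G) (hc : HasCompactSupport G) :
    ∃ B : ℝ, ∀ p, ‖fderiv ℝ (pd e G) p‖ ≤ B := by
  have h1 : Continuous (fderiv ℝ (pd e G)) := (smooth_pd e hG).continuous_fderiv (by simp)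
  have h2 : HasCompactSupport (fderiv ℝ (pd e G)) := (cs_pd e hc).fderiv ℝ
  exact h2.exists_bound_of_continuous h1

/-- scaling -/
theorem pd_scale (e : ℝ × ℝ) {G : ℝ × ℝ → ℝ} (hG : Sm G) {ρ : ℝ} (hρ : 0 < ρ) :
    pd e (fun z => ρ * G (ρ⁻¹ • z)) = fun z => pd e G (ρ⁻¹ • z) := by
  funext z
  have h1 : HasFDerivAt G (fderiv ℝ G (ρ⁻¹ • z)) (ρ⁻¹ • z) :=
    ((hG.differentiable (by simp)) _).hasFDerivAt
  have h2 : HasFDerivAt (fun z : ℝ × ℝ => ρ⁻¹ • z)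
      (ρ⁻¹ • ContinuousLinearMap.id ℝ (ℝ × ℝ)) z :=
    (ρ⁻¹ • ContinuousLinearMap.id ℝ (ℝ × ℝ)).hasFDerivAt
  have h3 := (h1.comp z h2).const_mul ρ
  unfold pd
  have h4 : HasFDerivAt (fun z => ρ * G (ρ⁻¹ • z))
      (ρ • ((fderiv ℝ G (ρ⁻¹ • z)).comp (ρ⁻¹ • ContinuousLinearMap.id ℝ (ℝ × ℝ)))) z := h3
  rw [h4.fderiv]
  simp only [_root_.smul_apply, ContinuousLinearMap.comp_apply,
    ContinuousLinearMap.id_apply, map_smul, smul_eq_mul]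
  rw [← mul_assoc, mul_inv_cancel₀ hρ.ne', one_mul]

theorem fd_scale {H : ℝ × ℝ → ℝ} (hH : Sm H) {ρ : ℝ} (hρ : 0 < ρ) (z : ℝ × ℝ) :
    ‖fderiv ℝ (fun z => H (ρ⁻¹ • z)) z‖ = ρ⁻¹ * ‖fderiv ℝ H (ρ⁻¹ • z)‖ := by
  have h1 : HasFDerivAt H (fderiv ℝ H (ρ⁻¹ • z)) (ρ⁻¹ • z) :=
    ((hH.differentiable (by simp)) _).hasFDerivAt
  have h2 : HasFDerivAt (fun z : ℝ × ℝ => ρ⁻¹ • z)
      (ρ⁻¹ • ContinuousLinearMap.id ℝ (ℝ × ℝ)) z :=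
    (ρ⁻¹ • ContinuousLinearMap.id ℝ (ℝ × ℝ)).hasFDerivAt
  have h3 : HasFDerivAt (fun z => H (ρ⁻¹ • z))
      ((fderiv ℝ H (ρ⁻¹ • z)).comp (ρ⁻¹ • ContinuousLinearMap.id ℝ (ℝ × ℝ))) z := h1.comp z h2
  rw [h3.fderiv]
  have h4 : (fderiv ℝ H (ρ⁻¹ • z)).comp (ρ⁻¹ • ContinuousLinearMap.id ℝ (ℝ × ℝ)) =
      ρ⁻¹ • fderiv ℝ H (ρ⁻¹ • z) := by
    ext <;> simp
  rw [h4, norm_smul, Real.norm_eq_abs, abs_of_pos (inv_pos.2 hρ)]

theorem t_trans (h : S_gf) : S_trans := by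
  intro p
  -- the bump function and the fixed function `G`
  let χ : ContDiffBump (0 : ℝ × ℝ) := ⟨1, 2, one_pos, by norm_num⟩
  let ℓ : (ℝ × ℝ) →L[ℝ] ℝ :=
    p.re • ContinuousLinearMap.snd ℝ ℝ ℝ - p.im • ContinuousLinearMap.fst ℝ ℝ ℝ
  let G : ℝ × ℝ → ℝ := fun w => χ w * ℓ w
  have hG : Sm G := χ.contDiff.mul ℓ.contDiff
  have hGc : HasCompactSupport G := χ.hasCompactSupport.mul_right
  have hGl : ∀ w : ℝ × ℝ, ‖w‖ < 1 → fderiv ℝ G w = ℓ := by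
    intro w hw
    have h1 : G =ᶠ[nhds w] ℓ := by
      have h2 : (χ : ℝ × ℝ → ℝ) =ᶠ[nhds w] 1 := χ.eventuallyEq_one_of_mem_ball (by
        rw [mem_ball_zero_iff]
        exact hw)
      filter_upwards [h2] with u hu
      change χ u * ℓ u = ℓ u
      rw [hu]
      simp
    rw [h1.fderiv_eq, ContinuousLinearMap.fderiv]
  obtain ⟨B1, hB1⟩ := bd_pd (1, 0) hG hGc
  obtain ⟨B2, hB2⟩ := bd_pd (0, 1) hG hGc
  have hB1' : 0 ≤ B1 := (norm_nonneg _).trans (hB1 0)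
  have hB2' : 0 ≤ B2 := (norm_nonneg _).trans (hB2 0)
  -- the scale
  set ρ : ℝ := 2 * (B1 + B2) + ‖p‖ + 2 with hρ
  have hp0 := norm_nonneg p
  have hρ0 : 0 < ρ := by positivity
  have hg : Sm (fun z => ρ * G (ρ⁻¹ • z)) := by
    have : ContDiff ℝ ((⊤ : ℕ∞) : WithTop ℕ∞) fun z : ℝ × ℝ => ρ⁻¹ • z :=
      contDiff_id.const_smul _
    exact contDiff_const.mul (hG.comp this)
  have hgc : HasCompactSupport (fun z => ρ * G (ρ⁻¹ • z)) := by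
    have h1 : HasCompactSupport (fun z : ℝ × ℝ => G (ρ⁻¹ • z)) :=
      hGc.comp_smul (inv_ne_zero hρ0.ne')
    exact h1.mul_left (f := fun _ : ℝ × ℝ => ρ)
  have hx : px (fun z => ρ * G (ρ⁻¹ • z)) = fun z => px G (ρ⁻¹ • z) := pd_scale (1, 0) hG hρ0
  have hs : ps (fun z => ρ * G (ρ⁻¹ • z)) = fun z => ps G (ρ⁻¹ • z) := pd_scale (0, 1) hG hρ0
  obtain ⟨f, hf1, hf2, hf3⟩ := h _ hg hgc (by
    intro z
    rw [hx, hs]
    constructor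
    · change ‖fderiv ℝ (fun z => pd (1, 0) G (ρ⁻¹ • z)) z‖ ≤ 1 / 2
      rw [fd_scale (smooth_pd (1, 0) hG) hρ0, inv_mul_le_iff₀ hρ0]
      exact (hB1 _).trans (by linarith)
    · change ‖fderiv ℝ (fun z => pd (0, 1) G (ρ⁻¹ • z)) z‖ ≤ 1 / 2
      rw [fd_scale (smooth_pd (0, 1) hG) hρ0, inv_mul_le_iff₀ hρ0]
      exact (hB2 _).trans (by linarith))
  refine ⟨f, hf1, hf2, 1, one_pos, fun z hz => ?_⟩
  have h1 := hf3 z.re (z.im + p.im)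
  have hn : ‖(ρ⁻¹ • ((z.re, z.im + p.im) : ℝ × ℝ))‖ < 1 := by
    rw [norm_smul, Real.norm_eq_abs, abs_of_pos (inv_pos.2 hρ0), inv_mul_lt_iff₀ hρ0, mul_one,
      Prod.norm_def, max_lt_iff]
    have e1 := Complex.abs_re_le_norm z
    have e2 := Complex.abs_im_le_norm z
    have e3 := Complex.abs_im_le_norm p
    constructor
    · rw [Real.norm_eq_abs]
      linarith
    · rw [Real.norm_eq_abs]
      have := abs_add_le z.im p.im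
      linarith
  rw [hx, hs] at h1
  have e1 : px G (ρ⁻¹ • ((z.re, z.im + p.im) : ℝ × ℝ)) = -p.im := by
    unfold px
    rw [hGl _ hn]
    simp [ℓ]
  have e2 : ps G (ρ⁻¹ • ((z.re, z.im + p.im) : ℝ × ℝ)) = p.re := by
    unfold ps
    rw [hGl _ hn]
    simp [ℓ]
  simp only [e1, e2] at h1
  have e3 : (⟨z.re, z.im + p.im + -p.im⟩ : ℂ) = z := by
    apply Complex.ext <;> simp
  rw [e3] at h1
  rw [h1]
  apply Complex.ext <;> simp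

end Pool.Agent.W597.DP
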